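import Pool.Agent.Q82.SF.CycC

/-!
# Semisimplicity of Frobenius and one explicit numerically trivial cycle

Let `W` be a Weil cohomology theory for the smooth projective varieties over an algebraic closure of the
field with `p` elements, with Frobenius endomorphisms `Φ` (`FrobSystem`), `X` a variety of dimension `n`
which satisfies the Riemann hypothesis (a theorem of Deligne for the `ℓ`-adic cohomology), with the
Frobenius endomorphism `F` over the field with `q` elements, and `D` a divisor on `X` with hard
Lefschetz, defined over this field. Let `d ≤ n`.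

There is a monic polynomial `P = ∑ P_j T ^ j` with rational coefficients and without multiple factors
which is a linear recurrence for the numbers of points of `X` over the extensions of the field. For each
such polynomial the cycle of dimension `d` on `X × X`

  `pr₂ ^* D ^ (n - d) · ∑ P_j Γ(F ^ j)`      (`Γ(F ^ j)` = graph of `F ^ j`)

is numerically equivalent to zero, unconditionally, and the following are equivalent:

* the cohomology class of this one cycle is zero;
* Frobenius is semisimple on `H^i(X)` for all `i ≤ d`;
* Frobenius is semisimple on `H^i(X)` for all `i ≤ d` and all `i ≥ 2 n - d`.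
-/

set_option autoImplicit false

open CategoryTheory AlgebraicGeometry

universe u v

namespace Pool.Agent.Results.MP_93fb11_ag.OneExplicitCycle

open Pool.Agent.H914 VarClass Obj Pool.Agent.W534 Pool.Agent.Q82.SF

/-- **Semisimplicity of Frobenius in degrees `≤ d` and one explicit cycle of dimension `d`.** -/
theorem result {k : Type u} [Field k] {𝒱 : VarClass k} {ops : CycleOps 𝒱}
    (W : WeilCohomology.{u, v} ops) (p : ℕ) (hp : 1 < p) (Φ : FrobSystem W p) (σ : W.K →+* ℂ)
    (X : 𝒱.Obj) (hRH : RiemannHyp Φ σ X) (D : X.Cycles) (hD : X.IsCyc 1 D)
    (hDef : IsDefined Φ X D) (hHL : HardLefschetz W X D) (d : ℕ) (hd : d ≤ X.dim) :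
    (∃ P, IsPointPoly Φ X P) ∧ ∀ P, IsPointPoly Φ X P →
      NumZero ops (X.prod X) (2 * X.dim - d) (frobCycle Φ X D d P) ∧
      List.TFAE [
        W.cl _ (frobCycle Φ X D d P) = 0,
        ∀ i ≤ d, FrobSemisimple Φ X i,
        SemisimpleOuter Φ X d] :=
  one_cycle Φ hp hRH hD hDef hHL hd

end Pool.Agent.Results.MP_93fb11_ag.OneExplicitCycle
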