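import Pool.Agent.Q60.SS.Var

/-!
# MP_93fb11_ag: the Jordan blocks of Frobenius on the powers of a variety

Let `X` be a smooth projective variety over a finite field, `b` the sum of its `ℓ`-adic Betti numbers
and `A = ∑ s (s² - 1) / 3` over the sizes `s` of the Jordan blocks of the Frobenius on `H^*(X)`.

* If the Frobenius is semisimple on `H^*(X)`, it is semisimple on the cohomology of all `X^n`.
* If not, then `A > 0` and the number of the Jordan blocks of size greater than `t √n` of the Frobenius
  on `H^*(X^n)` is asymptotic to `b^n √(2 b / (π A n)) exp (- t² b / (2 A))`, for all `t ≥ 0`: the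
  sizes of the blocks, divided by `√n`, follow the Rayleigh law, and the number of the blocks (the
  number of independent eigenvectors) is only of the order `b^n / √n`.
* So if on infinitely many powers `X^n` the Frobenius has at least `ε b^n` independent eigenvectors,
  for some `ε > 0`, then it is semisimple on `H^*(X)`.
-/

set_option autoImplicit false

open Module Filter Topology

universe u v w

namespace Pool.Agent.Results.MP_93fb11_ag.RayleighLaw

open Pool.Agent.H914 Pool.Agent.Q60.SS

/-- **The Rayleigh law for the Jordan blocks of Frobenius.** -/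
theorem result {k : Type u} [Field k] [Finite k] {Ω : Type w} [Field Ω] [CharZero Ω]
    [IsAlgClosed Ω] {T : FTheory.{u, v, w} k Ω} (hT : T.IsFin) (X : SmVar.{u} k) (b A : ℝ)
    (hb : b = finrank Ω (T.H X).V) (hA : A = jordanMoment (T.H X).F) :
    (Semisimple (T.H X).F → ∀ n, Semisimple (T.H (pow X n)).F) ∧
    (¬ Semisimple (T.H X).F → 0 < A ∧ ∀ t : ℝ, 0 ≤ t →
      Tendsto (fun n : ℕ => √((n + 1 : ℕ) : ℝ) *
        ((blocks (T.H (pow X n)).F ⌊t * √((n + 1 : ℕ) : ℝ)⌋₊ : ℝ) / b ^ (n + 1))) atTop
        (𝓝 (√(2 * b / (Real.pi * A)) * Real.exp (-(t ^ 2 * b / (2 * A)))))) ∧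
    (∀ ε : ℝ, 0 < ε → (∃ᶠ n in atTop, ε * b ^ (n + 1) ≤ blocks (T.H (pow X n)).F 0) →
      Semisimple (T.H X).F) := by
  have h := jordan_law (R := fun n => T.H (pow X n)) (hT.coh X)
    (fun n => hT.kunneth X (pow X n)) b A hb hA
  exact ⟨h.1, h.2, fun ε hε h' => semisimple_of_blocks (R := fun n => T.H (pow X n)) (hT.coh X)
    (fun n => hT.kunneth X (pow X n)) b ε hb hε h'⟩

end Pool.Agent.Results.MP_93fb11_ag.RayleighLaw
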