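import Pool.Agent.Q60.SS.Tate2

/-!
# MP_93fb11_ag: a zero-one law for the Tate classes on the powers of a variety

Let `X` be a smooth projective variety over a finite field with `q` elements, `t_n` the dimension of
the space of the Tate classes of all codimensions on `X^n` (the classes in `H^(2 j)` with
`F x = q ^ j x`) and `z_n` the sum of the orders of the poles of the zeta function of `X^n` at the
integers (the sum of the algebraic multiplicities of the eigenvalues `q ^ j` on `H^(2 j)`).

* If the Frobenius is semisimple on `H^*(X)`, then `t_n = z_n` for all `n`.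
* If not, then `t_n ≤ C z_n / √n` for a constant `C` and all `n`.
* So if for some `ε > 0` the Tate classes (or the classes of algebraic cycles, or any spaces `A n j`
  of Tate classes) account for at least `ε z_n` on infinitely many powers, then the Frobenius is
  semisimple on `H^*(X)` and `t_n = z_n` for all `n`.
-/

set_option autoImplicit false

open Module Filter Topology

universe u v w

namespace Pool.Agent.Results.MP_93fb11_ag.TateZeroOne

open Pool.Agent.H914 Pool.Agent.Q60.SS

/-- **The zero-one law for Tate classes.** -/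
theorem result {k : Type u} [Field k] [Finite k] {Ω : Type w} [Field Ω] [CharZero Ω]
    [IsAlgClosed Ω] {T : FTheory.{u, v, w} k Ω} (hT : T.IsWeil (Nat.card k)) (X : SmVar.{u} k) :
    (∀ n, 0 < poleOrder (T.H (pow X n)) (Nat.card k)) ∧
    (Semisimple (T.H X).F → ∀ n,
      tateDim (T.H (pow X n)) (Nat.card k) = poleOrder (T.H (pow X n)) (Nat.card k)) ∧
    (¬ Semisimple (T.H X).F → ∃ C : ℝ, 0 < C ∧ ∀ n : ℕ, √((n + 1 : ℕ) : ℝ) *
      (tateDim (T.H (pow X n)) (Nat.card k) : ℝ) ≤
        C * (poleOrder (T.H (pow X n)) (Nat.card k) : ℝ)) ∧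
    (∀ (A : ∀ n, ℕ → Submodule Ω (T.H (pow X n)).V), (∀ n j, A n j ≤
        (T.H (pow X n)).gr (2 * j) ⊓ (T.H (pow X n)).F.eigenspace ((Nat.card k : Ω) ^ j)) →
      ∀ ε : ℝ, 0 < ε → (∃ᶠ n in atTop, ε * (poleOrder (T.H (pow X n)) (Nat.card k) : ℝ) ≤
        ((∑ᶠ j : ℕ, (finrank Ω (A n j) : ℤ) : ℤ) : ℝ)) →
      Semisimple (T.H X).F ∧ ∀ n,
        tateDim (T.H (pow X n)) (Nat.card k) = poleOrder (T.H (pow X n)) (Nat.card k)) := by
  have hq : 0 < Nat.card k := Nat.card_pos
  obtain ⟨B, hB⟩ := hT.dual X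
  obtain ⟨h1, h2, h3⟩ := tate_law (R := fun n => T.H (pow X n)) hq (hT.fin.coh X)
    (fun n => (hT.fin.coh _).isInternal) (fun n => hT.fin.kunneth X (pow X n)) hB (hT.unit X)
  refine ⟨h1, h2, h3, fun A hA ε hε h => ?_⟩
  have h4 : Semisimple (T.H X).F := by
    refine semisimple_of_tate (R := fun n => T.H (pow X n)) hq (hT.fin.coh X)
      (fun n => (hT.fin.coh _).isInternal) (fun n => hT.fin.kunneth X (pow X n)) hB (hT.unit X)
      hε (h.mono fun n hn => hn.trans ?_)
    exact_mod_cast sub_le_tateDim (hT.fin.coh _) _ (hA n)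
  exact ⟨h4, h2 h4⟩

end Pool.Agent.Results.MP_93fb11_ag.TateZeroOne
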