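import Pool.Agent.Q148.LI.FrobW

/-!
# Semisimplicity of Frobenius and the weight complexes of the cubics `T(x, y, z) = 1`

Let `k` be a finite field with `q` elements, `ℓ` a prime number different from the characteristic, `E` an
algebraic closure of the field of `ℓ`-adic numbers. For smooth projective schemes `Y` over `k` let
`V w Y = H^w(Ȳ, ℚ_ℓ) ⊗ E`, with the Frobenius `F` (a module over `E[F]`). For a scheme `X` of finite
type over `k` let `W(X)` be its weight complex, a complex of Chow motives with rational coefficients,
well defined up to homotopy (Gillet, Soulé; Bondarko). Its cohomology `H^w(W(X))` is a complex of modules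
over `E[F]`, and `C.ρ (w, α, i) X` is the natural map

  `H^i(ker (F - α | H^w(W(X)))) → H^i(coker (F - α | H^w(W(X))))`.

For smooth projective `Y` it is the map `ker (F - α | H^w(Y)) → H^w(Y) / (F - α)` for `i = 0`, and it is
bijective if and only if the generalized eigenspace of `F` for `α` is the eigenspace.

Let `S` be a set of eigenvalues that is stable under multiplication with powers of `q`: all elements of
`E` (question Q1), the powers of `q`, the products of powers of `q` with one number `α`, ...

**Theorem.** (1) The following are equivalent: for all smooth projective `Y` over `k` the generalized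
eigenspaces of `F` on the cohomology of `Y` for the eigenvalues in `S` are eigenspaces; for all `X` of
finite type the maps `C.ρ (w, α, i) X`, `α ∈ S`, are bijective; they are bijective for the cubic
hypersurfaces `T(x, y, z) = 1` in affine spaces, for all trilinear forms `T` over `k`.

(2) If `k` is a prime field, the coefficients of `T` can be taken to be `0` and `1`.

(3) Unconditionally, the maps are bijective for the hypersurfaces `T(x, y, z) = 1` such that one of the
three blocks of variables has at most three variables.
-/

set_option autoImplicit false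

open CategoryTheory CategoryTheory.Limits AlgebraicGeometry Pool.Agent.Y116.UV Pool.Agent.Z125.UN
  Pool.Agent.Q193.LT Pool.Agent.Q148.LI

namespace Pool.Agent.Results.MP_93fb11_ag.WeightComplexCubics

variable {k : Type} [Field k] {E : Type} [Field E]

lemma frac_of_prime [Finite k] (hk : (Nat.card k).Prime) : Frac k := by
  apply frac_of_surj
  have := Fintype.ofFinite k
  have : Fact (Fintype.card k).Prime := ⟨by rwa [Nat.card_eq_fintype_card] at hk⟩
  intro r
  let e : ZMod (Fintype.card k) ≃+* k := ZMod.ringEquivOfPrime k this.out rfl
  obtain ⟨n, hn⟩ := ZMod.intCast_surjective (e.symm r)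
  exact ⟨n, by rw [← map_intCast e, hn, e.apply_symm_apply]⟩

/-- The generalized eigenspaces of `F` for eigenvalues in `S` are eigenspaces, for all smooth projective
schemes over `k`; for `S = univ` this is the statement of Q1 for `k` and `ℓ`. -/
def Semisimple (V : ℤ → Sch k → FMod E) (S : Set E) : Prop :=
  ∀ Y : Sch k, SmoothProj Y → ∀ w : ℤ, NoBlock S (V w Y)

/-- **Semisimplicity of Frobenius and cubics.** See the explanations above. The known cases that are used
are points and smooth projective curves. -/
theorem result [Finite k] [CharZero E] {S : Set E} (hS : Stable (Nat.card k) S)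
    (C : PairData.{0} k (FIdx S) E) (V : ℤ → Sch k → FMod E) (h : IsFrobW C V (Nat.card k))
    (curves : ∀ Y : Sch k, SmoothProj Y → topologicalKrullDim Y.left ≤ (1 : ℕ) →
      ∀ w : ℤ, NoBlock S (V w Y)) :
    List.TFAE [
      Semisimple V S,
      ∀ X : Sch k, FT True X → BijAll C X,
      ∀ (a b c : ℕ) (T : Fin a → Fin b → Fin c → k), BijAll C (hypS T)] ∧
    ((Nat.card k).Prime → (Semisimple V S ↔
      ∀ (a b c : ℕ) (H : Finset (Fin a × Fin b × Fin c)), BijAll C (tripS k H))) ∧
    ∀ (a b c : ℕ) (T : Fin a → Fin b → Fin c → k), (a ≤ 3 ∨ b ≤ 3 ∨ c ≤ 3) →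
      BijAll C (hypS T) := by
  have hq : (Nat.card k : E) ≠ 0 := by
    rw [Nat.cast_ne_zero]
    exact Nat.card_pos.ne'
  have hp := h.pair hq hS
  have h0 : Semisimple V S ↔ ∀ Y : Sch k, SmoothProj Y → BijAll C Y :=
    ⟨fun h1 Y hY => (h.bij_iff' hY).mpr (h1 Y hY), fun h1 Y hY => (h.bij_iff' hY).mp (h1 Y hY)⟩
  refine ⟨?_, fun hk => ?_, ?_⟩
  · tfae_have 1 ↔ 3 := h0.trans (wg_all h.gen hp h.point)
    tfae_have 2 → 1 := fun h1 => h0.mpr fun Y hY => h1 Y hY.ft
    tfae_have 3 → 2 := fun h1 X hX => (all_iff (bnd_pair hp h.point)).mpr h1 X hX
    tfae_finish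
  · exact h0.trans (wg_graph h.gen hp h.point (frac_of_prime hk))
  · intro a b c T hT
    exact (wg_dim h.gen hp h.point 1).mp
      (fun Y hY hn => (h.bij_iff' hY).mpr (curves Y hY hn)) a b c T hT

end Pool.Agent.Results.MP_93fb11_ag.WeightComplexCubics
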